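import Pool.Agent.R591.BRT.Tree

/-!
# The main claim: automorphisms preserve the last switch.
-/

open Set Cardinal Topology

set_option linter.unusedSectionVars false

universe u

namespace Pool.Agent.R591.BRT

variable {A : Type u} [LinearOrder A] {o : A} {S : LadSys A o}

/-- labels generated by `F` -/
def Gen (S : LadSys A o) (F : Finset A) : Set A :=
  {a | a = o ∨ a ∈ F ∨ ∃ δ ∈ F, ∃ n, a = S.η δ n}

theorem Gen_mono {F G : Finset A} (h : F ⊆ G) : Gen S F ⊆ Gen S G := by
  rintro a (h1 | h1 | ⟨δ, hδ, n, hn⟩)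
  · exact Or.inl h1
  · exact Or.inr (Or.inl (h h1))
  · exact Or.inr (Or.inr ⟨δ, h hδ, n, hn⟩)

theorem Gen_countable (F : Finset A) : (Gen S F).Countable := by
  have : Gen S F ⊆ {o} ∪ (F : Set A) ∪ ⋃ δ ∈ (F : Set A), range (S.η δ) := by
    rintro a (h1 | h1 | ⟨δ, hδ, n, hn⟩)
    · exact Or.inl (Or.inl h1)
    · exact Or.inl (Or.inr h1)
    · exact Or.inr (mem_iUnion₂.2 ⟨δ, hδ, n, hn.symm⟩)
  refine Set.Countable.mono this (Set.Countable.union (Set.Countable.union ?_ ?_) ?_)
  · exact countable_singleton o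
  · exact F.countable_toSet
  · exact Set.Countable.biUnion F.countable_toSet (fun δ _ => countable_range _)

theorem Node.gen_aux (x : Node S) :
    (∃ F : Finset A, ∀ t ∈ Icc 0 x.r, x.f t ∈ Gen S F) ∧
      (Icc 0 x.r ∩ {t | x.f t ≠ o}).Countable := by
  classical
  refine isCompact_Icc.induction_on
    (p := fun s : Set ℝ => (∃ F : Finset A, ∀ t ∈ s, x.f t ∈ Gen S F) ∧
      (s ∩ {t | x.f t ≠ o}).Countable) ?_ ?_ ?_ ?_
  · exact ⟨⟨∅, by simp⟩, by simp⟩
  · rintro s t hst ⟨⟨F, hF⟩, hc⟩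
    exact ⟨⟨F, fun a ha => hF a (hst ha)⟩, hc.mono (inter_subset_inter_left _ hst)⟩
  · rintro s t ⟨⟨F, hF⟩, hc⟩ ⟨⟨G, hG⟩, hc'⟩
    refine ⟨⟨F ∪ G, ?_⟩, ?_⟩
    · rintro a (ha | ha)
      · exact Gen_mono Finset.subset_union_left (hF a ha)
      · exact Gen_mono Finset.subset_union_right (hG a ha)
    · rw [union_inter_distrib_right]
      exact hc.union hc'
  · intro a _
    obtain ⟨e, he, hz⟩ := x.rz a
    by_cases hl : LeftLim o x.f a
    · obtain ⟨δ, hδ, t, h1, h2, h3, h4, h5, h6, h7, h8⟩ := x.rule a hl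
      refine ⟨Ioo (t 0) e, mem_nhdsWithin_of_mem_nhds (Ioo_mem_nhds (h2 0) he),
        ⟨{δ, S.cl δ, x.f a}, ?_⟩, ?_⟩
      · intro b hb
        rcases lt_trichotomy b a with h | h | h
        · by_cases hbo : x.f b = o
          · exact Or.inl hbo
          · obtain ⟨n, hn⟩ := h8 b hb.1.le h hbo
            rcases n with _ | n
            · rw [hn, h4]; exact Or.inr (Or.inl (by simp))
            · rw [hn, h5]; exact Or.inr (Or.inr ⟨δ, by simp, n, rfl⟩)
        · subst h; exact Or.inr (Or.inl (by simp))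
        · exact Or.inl (hz b h hb.2)
      · have : Ioo (t 0) e ∩ {t | x.f t ≠ o} ⊆ insert a (range t) := by
          rintro b ⟨hb, hbo⟩
          rcases lt_trichotomy b a with h | h | h
          · obtain ⟨n, hn⟩ := h8 b hb.1.le h hbo
            exact Or.inr ⟨n, hn.symm⟩
          · exact Or.inl h
          · exact absurd (hz b h hb.2) hbo
        exact ((countable_range t).insert a).mono this
    · unfold LeftLim at hl
      push Not at hl
      obtain ⟨c, hca, hc⟩ := hl
      refine ⟨Ioo c e, mem_nhdsWithin_of_mem_nhds (Ioo_mem_nhds hca he),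
        ⟨{x.f a}, ?_⟩, ?_⟩
      · intro b hb
        rcases lt_trichotomy b a with h | h | h
        · exact Or.inl (hc b hb.1 h)
        · subst h; exact Or.inr (Or.inl (by simp))
        · exact Or.inl (hz b h hb.2)
      · have : Ioo c e ∩ {t | x.f t ≠ o} ⊆ {a} := by
          rintro b ⟨hb, hbo⟩
          rcases lt_trichotomy b a with h | h | h
          · exact absurd (hc b hb.1 h) hbo
          · exact h
          · exact absurd (hz b h hb.2) hbo
        exact (countable_singleton a).mono this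

theorem Node.exists_gen (x : Node S) : ∃ F : Finset A, ∀ t, x.f t ∈ Gen S F := by
  obtain ⟨F, hF⟩ := x.gen_aux.1
  refine ⟨F, fun t => ?_⟩
  by_cases ht : x.f t = o
  · exact Or.inl ht
  · have := x.supp t ht
    exact hF t ⟨this.1, this.2.le⟩

theorem Node.countable_supp (x : Node S) : {t | x.f t ≠ o}.Countable := by
  refine x.gen_aux.2.mono ?_
  intro t ht
  have := x.supp t ht
  exact ⟨⟨this.1, this.2.le⟩, ht⟩

theorem mk_gen_le (F : Finset A) : #{x : Node S // ∀ t, x.f t ∈ Gen S F} ≤ 𝔠 := by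
  classical
  let g : {x : Node S // ∀ t, x.f t ∈ Gen S F} →
      ℝ × {s : Set (ℝ × Gen S F) // #s ≤ ℵ₀} := fun x =>
    (x.1.r, ⟨{p | x.1.f p.1 = p.2.1 ∧ x.1.f p.1 ≠ o}, by
      rw [Cardinal.le_aleph0_iff_set_countable]
      have hinj : InjOn (fun p : ℝ × Gen S F => p.1)
          {p | x.1.f p.1 = p.2.1 ∧ x.1.f p.1 ≠ o} := by
        rintro ⟨a, b⟩ ⟨h1, h2⟩ ⟨a', b'⟩ ⟨h1', h2'⟩ h
        simp only at h h1 h1'
        subst h
        exact Prod.ext rfl (Subtype.ext (h1.symm.trans h1'))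
      refine Set.MapsTo.countable_of_injOn (t := {t | x.1.f t ≠ o}) ?_ hinj x.1.countable_supp
      rintro ⟨a, b⟩ ⟨h1, h2⟩
      exact h2⟩)
  have hg : Function.Injective g := by
    rintro ⟨x, hx⟩ ⟨y, hy⟩ hxy
    simp only [g, Prod.mk.injEq, Subtype.mk.injEq] at hxy
    obtain ⟨h1, h2⟩ := hxy
    apply Subtype.ext
    apply Node.ext h1
    funext t
    by_cases hxt : x.f t = o
    · by_cases hyt : y.f t = o
      · rw [hxt, hyt]
      · have : ((t, ⟨y.f t, hy t⟩) : ℝ × Gen S F) ∈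
            {p : ℝ × Gen S F | x.f p.1 = p.2.1 ∧ x.f p.1 ≠ o} := by
          rw [h2]; exact ⟨rfl, hyt⟩
        exact this.1
    · have : ((t, ⟨x.f t, hx t⟩) : ℝ × Gen S F) ∈
            {p : ℝ × Gen S F | y.f p.1 = p.2.1 ∧ y.f p.1 ≠ o} := by
        rw [← h2]; exact ⟨rfl, hxt⟩
      exact this.1.symm
  refine (Cardinal.mk_le_of_injective hg).trans ?_
  rw [Cardinal.mk_prod]
  simp only [Cardinal.mk_real, Cardinal.lift_continuum, Cardinal.lift_uzero]
  have h1 : #(ℝ × Gen S F) ≤ 𝔠 := by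
    rw [Cardinal.mk_prod]
    simp only [Cardinal.mk_real, Cardinal.lift_continuum, Cardinal.lift_uzero]
    refine (mul_le_mul' le_rfl ((Gen_countable (S := S) F).le_aleph0.trans
      Cardinal.aleph0_le_continuum)).trans ?_
    exact (Cardinal.mul_eq_self Cardinal.aleph0_le_continuum).le
  have h2 : #{s : Set (ℝ × Gen S F) // #s ≤ ℵ₀} ≤ 𝔠 := by
    refine (Cardinal.mk_bounded_set_le _ _).trans ?_
    refine (Cardinal.power_le_power_right (max_le h1 Cardinal.aleph0_le_continuum)).trans ?_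
    exact Cardinal.continuum_power_aleph0.le
  exact (mul_le_mul' le_rfl h2).trans (Cardinal.mul_eq_self Cardinal.aleph0_le_continuum).le

/-- a finite description of a node -/
noncomputable def Node.D (x : Node S) : Finset A := x.exists_gen.choose

theorem Node.D_spec (x : Node S) (t : ℝ) : x.f t ∈ Gen S x.D := x.exists_gen.choose_spec t

/-- the closure operation of an automorphism -/
def Gam (π : Node S ≃o Node S) (F : Finset A) : Set A :=
  (⋃ x : {x : Node S // ∀ t, x.f t ∈ Gen S F}, ((π x.1).D : Set A) ∪ ((π.symm x.1).D : Set A)) ∪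
    Gen S F

theorem mk_Gam_le (π : Node S ≃o Node S) (F : Finset A) : #(Gam π F) ≤ 𝔠 := by
  classical
  have hc := Cardinal.aleph0_le_continuum.{u}
  refine (Cardinal.mk_union_le _ _).trans (Cardinal.add_le_of_le hc ?_ ?_)
  · refine (Cardinal.mk_iUnion_le _).trans ?_
    have : (⨆ x : {x : Node S // ∀ t, x.f t ∈ Gen S F},
        #(((π x.1).D : Set A) ∪ ((π.symm x.1).D : Set A) : Set A)) ≤ 𝔠 := by
      refine ciSup_le' (fun x => ?_)
      refine le_trans ?_ hc
      rw [Cardinal.le_aleph0_iff_set_countable]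
      exact ((π x.1).D.countable_toSet).union ((π.symm x.1).D.countable_toSet)
    exact (mul_le_mul' (mk_gen_le F) this).trans (Cardinal.mul_eq_self hc).le
  · exact ((Gen_countable (S := S) F).le_aleph0).trans hc

/-- nodes described inside `L` -/
def InX (L : Set A) (x : Node S) : Prop := ∃ F : Finset A, (F : Set A) ⊆ L ∧ ∀ t, x.f t ∈ Gen S F

theorem InX.map {π : Node S ≃o Node S} {L : Set A} (hL : Clo (Gam π) L) {x : Node S}
    (h : InX L x) : InX L (π x) := by
  obtain ⟨F, hF, hx⟩ := h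
  refine ⟨(π x).D, ?_, (π x).D_spec⟩
  intro a ha
  apply hL F hF
  exact Or.inl (mem_iUnion.2 ⟨⟨x, hx⟩, Or.inl ha⟩)

theorem InX.map_symm {π : Node S ≃o Node S} {L : Set A} (hL : Clo (Gam π) L) {x : Node S}
    (h : InX L (π x)) : InX L x := by
  obtain ⟨F, hF, hx⟩ := h
  refine ⟨x.D, ?_, x.D_spec⟩
  intro a ha
  apply hL F hF
  refine Or.inl (mem_iUnion.2 ⟨⟨π x, hx⟩, Or.inr ?_⟩)
  show a ∈ ((π.symm (π x)).D : Set A)
  rw [π.symm_apply_apply]; exact ha

theorem InX.labels {π : Node S ≃o Node S} {L : Set A} (hL : Clo (Gam π) L) {x : Node S}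
    (h : InX L x) (t : ℝ) : x.f t ∈ L := by
  obtain ⟨F, hF, hx⟩ := h
  exact hL F hF (Or.inr (hx t))

theorem InX.chain {π : Node S ≃o Node S} {L : Set A} (hL : Clo (Gam π) L)
    {p : ℕ → Node S} {d : ℕ → A} (hp : ChainExt p d) (h0 : ((p 0).D : Set A) ⊆ L) (n : ℕ) :
    InX L (p n) ↔ ∀ j < n, d j ∈ L := by
  classical
  constructor
  · intro h j hj
    rw [← hp.f_at hj]
    exact h.labels hL _
  · intro h
    refine ⟨(p 0).D ∪ (Finset.range n).image d, ?_, ?_⟩
    · intro a ha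
      simp only [Finset.coe_union, Finset.coe_image, mem_union, mem_image, Finset.mem_coe,
        Finset.mem_range] at ha
      rcases ha with ha | ⟨j, hj, rfl⟩
      · exact h0 ha
      · exact h j hj
    · intro t
      by_cases ht : (p n).f t = o
      · exact Or.inl ht
      · rcases hp.supp n ht with h1 | ⟨j, hj, h1⟩
        · rw [hp.f_zero n h1]
          exact Gen_mono Finset.subset_union_left ((p 0).D_spec t)
        · rw [h1, hp.f_at hj]
          refine Or.inr (Or.inl ?_)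
          simp only [Finset.mem_union, Finset.mem_image, Finset.mem_range]
          exact Or.inr ⟨j, hj, rfl⟩

/-- `(r,a)` is the last switch of `f`. -/
def LSw (o : A) (f : ℝ → A) (r : ℝ) (a : A) : Prop := a ≠ o ∧ f r = a ∧ ∀ t > r, f t = o

theorem LSw.unique {f : ℝ → A} {r r' : ℝ} {a a' : A} (h : LSw o f r a) (h' : LSw o f r' a') :
    r = r' ∧ a = a' := by
  have hr : r = r' := by
    rcases lt_trichotomy r r' with h1 | h1 | h1
    · have := h.2.2 r' h1
      rw [h'.2.1] at this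
      exact absurd this h'.1
    · exact h1
    · have := h'.2.2 r h1
      rw [h.2.1] at this
      exact absurd this h.1
  refine ⟨hr, ?_⟩
  rw [← h.2.1, ← h'.2.1, hr]

variable [WellFoundedLT A]

theorem claim (hA : ∀ a : A, #(Iio a) < #A) (hcA : 𝔠 < #A)
    (π : Node S ≃o Node S) (z : Node S) (α' : A) (r' : ℝ) (a' : A)
    (h : LSw o (Function.update z.f z.r α') r' a')
    (hcls : ∀ r'' a'', LSw o (Function.update (π z).f (π z).r (sig π z α')) r'' a'' →
      cls a'' ≤ cls a') :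
    LSw o (Function.update (π z).f (π z).r (sig π z α')) r' a' := by
  classical
  set M := z.r + 1 with hM
  -- first step
  obtain ⟨u0, hu0M, ⟨e0, he0, hu0⟩, ⟨e0', he0', hπu0⟩, ⟨q0, hq0⟩, hsig0⟩ :=
    step_rat π z α' (show z.r < M by simp [hM]) r'
  set y := π z with hy
  set gy := Function.update y.f y.r (sig π z α') with hgy
  have hπu0f : (π u0).f = gy := by rw [hπu0, Node.ext'_f]
  have hyπu0 : y < π u0 := by rw [hπu0]; exact Node.lt_ext' _ _ _ _
  have hu0f : u0.f = Function.update z.f z.r α' := by rw [hu0, Node.ext'_f]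
  have hzu0 : z < u0 := by rw [hu0]; exact Node.lt_ext' _ _ _ _
  -- r' ≤ z.r
  have hr'z : r' ≤ z.r := by
    by_contra hcon
    rw [not_le] at hcon
    have h1 := h.2.1
    rw [Function.update_of_ne hcon.ne', z.f_eq_o hcon.le] at h1
    exact h.1 h1.symm
  have hr'u0 : r' < u0.r := hr'z.trans_lt (Node.r_lt hzu0)
  -- the avoided label b
  obtain ⟨b, hb, hb2⟩ : ∃ b, cls b ≤ cls a' ∧ ∀ r'' a'', LSw o gy r'' a'' → a'' = b := by
    by_cases hex : ∃ r'' a'', LSw o gy r'' a''
    · obtain ⟨r'', a'', h'⟩ := hex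
      exact ⟨a'', hcls _ _ h', fun r₁ a₁ h₁ => (h₁.unique h').2⟩
    · exact ⟨a', le_rfl, fun r₁ a₁ h₁ => absurd ⟨r₁, a₁, h₁⟩ hex⟩
  -- choose δ
  obtain ⟨δ, hδG, hct, hcl, hbη, hK⟩ := K2 S hA hcA (Gam π) (mk_Gam_le π)
    (u0.D ∪ (π u0).D) r' a' b h.1 hb
  have hlad := S.lad δ hδG
  -- the sequence
  let St := {u : Node S // u.r < M ∧ sig π u o = o}
  have hstep : ∀ (n : ℕ) (u : St), ∃ v : St,
      (∃ e, ∃ he : 0 < e, v.1 = u.1.ext' (S.η δ n) e he) ∧
      (∃ e', ∃ he' : 0 < e', Irrational e' ∧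
        π v.1 = (π u.1).ext' (sig π u.1 (S.η δ n)) e' he') := by
    intro n u
    obtain ⟨v, h1, h2, h3, h4⟩ := step_irr π u.1 (S.η δ n) u.2.1
    exact ⟨⟨v, h1, h4⟩, h2, h3⟩
  choose nx hnx1 hnx2 using hstep
  let us : ℕ → St := fun n => Nat.rec ⟨u0, hu0M, hsig0⟩ (fun n u => nx n u) n
  have hus : ∀ n, us (n + 1) = nx n (us n) := fun n => rfl
  let p : ℕ → Node S := fun n => (us n).1
  have hp0 : p 0 = u0 := rfl
  have hpM : ∀ n, (p n).r < M := fun n => (us n).2.1
  have hp : ChainExt p (S.η δ) := fun n => hnx1 n (us n)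
  let w : ℕ → A := fun n => sig π (p n) (S.η δ n)
  have hq' : ∀ n, ∃ e', ∃ he' : 0 < e', Irrational e' ∧
      π (p (n + 1)) = (π (p n)).ext' (w n) e' he' := fun n => hnx2 n (us n)
  have hq : ChainExt (fun n => π (p n)) w := by
    intro n
    obtain ⟨e', he', _, h1⟩ := hq' n
    exact ⟨e', he', h1⟩
  have hirr : ∀ n, Irrational ((π (p (n + 1))).r - (π (p n)).r) := by
    intro n
    obtain ⟨e', he', h1, h2⟩ := hq' n
    rw [h2]; simpa using h1
  have hw : ∀ n, w n ≠ o := by
    intro n hcon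
    have h1 : sig π (p n) o = o := (us n).2.2
    have h2 : sig π (p n) (S.η δ n) = sig π (p n) o := by rw [h1]; exact hcon
    exact S.η_ne δ hδG n (sig_inj π _ h2)
  -- limit node
  obtain ⟨s, _, hs1, hs2⟩ := exists_sup_seq hp.r_strictMono (M := M) (fun n => (hpM n).le)
  obtain ⟨U, hU⟩ : ∃ U : Node S, ∀ n, p n ≤ U := by
    apply exists_limNode hp.strictMono hs1 hs2
    set f := limf o (fun n => (p n).r) (fun n => (p n).f) with hf
    have hfn : ∀ n t, t < (p n).r → f t = (p n).f t := fun n t ht => limf_eq hp.strictMono ht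
    let t : ℕ → ℝ := fun n => Nat.casesOn n r' (fun m => (p m).r)
    have ht0 : t 0 = r' := rfl
    have hts : ∀ n, t (n + 1) = (p n).r := fun n => rfl
    refine ⟨δ, hδG, t, ?_, ?_, ?_, ?_, ?_, ?_, ?_, ?_⟩
    · apply strictMono_nat_of_lt_succ
      intro n
      cases n with
      | zero => exact hr'u0
      | succ n => exact hp.r_strictMono (Nat.lt_succ_self n)
    · intro n
      cases n with
      | zero => exact hr'u0.trans (hs1 0)
      | succ n => exact hs1 n
    · intro x hx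
      obtain ⟨n, hn⟩ := hs2 x hx
      exact ⟨n + 1, hn⟩
    · rw [ht0, hfn 0 r' hr'u0, hp0, hu0f, hcl]
      exact h.2.1
    · intro n
      rw [hts, hfn (n + 1) _ (hp.r_strictMono (Nat.lt_succ_self n))]
      exact hp.f_self n
    · rw [ht0, hct]
    · exact ⟨q0, hq0⟩
    · intro x hx1 hx2 hx3
      obtain ⟨n, hn⟩ := hs2 x hx2
      rw [hfn n x hn] at hx3
      rcases hp.supp n hx3 with h1 | ⟨j, _, h1⟩
      · rw [hp.f_zero n h1, hp0, hu0f] at hx3
        refine ⟨0, ?_⟩
        by_contra hne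
        exact hx3 (h.2.2 x (lt_of_le_of_ne hx1 (Ne.symm hne)))
      · exact ⟨j + 1, h1⟩
  -- the image
  set v := π U with hv
  have hqv : ∀ n, π (p n) ≤ v := fun n => π.monotone (hU n)
  obtain ⟨ρ, hρv, hρ1, hρ2⟩ := exists_sup_seq hq.r_strictMono (M := v.r) (fun n => (hqv n).1)
  have hvf : ∀ n t, t < (π (p n)).r → v.f t = (π (p n)).f t := fun n t ht =>
    ((hqv n).2 t ht).symm
  have hvw : ∀ n, v.f (π (p n)).r = w n := by
    intro n
    rw [hvf (n + 1) _ (hq.r_strictMono (Nat.lt_succ_self n))]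
    exact hq.f_self n
  have hLL : LeftLim o v.f ρ := by
    intro x hx
    obtain ⟨n, hn⟩ := hρ2 x hx
    exact ⟨(π (p n)).r, hn, hρ1 n, by rw [hvw]; exact hw n⟩
  have hyr : y.r < (π (p 0)).r := Node.r_lt hyπu0
  have hsupp : ∀ t, y.r < t → t < ρ → v.f t ≠ o → ∃ j, t = (π (p j)).r := by
    intro t ht1 ht2 ht3
    obtain ⟨n, hn⟩ := hρ2 t ht2
    rw [hvf n t hn] at ht3
    rcases hq.supp n ht3 with h1 | ⟨j, _, h1⟩
    · exfalso
      have h2 : (π (p n)).f t = (π (p 0)).f t := hq.f_zero n h1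
      rw [h2, hp0, hπu0f, hgy, Function.update_of_ne ht1.ne', y.f_eq_o ht1.le] at ht3
      exact ht3 rfl
    · exact ⟨j, h1⟩
  have hvg : ∀ t, t ≤ y.r → v.f t = gy t := by
    intro t ht
    rw [hvf 0 t (ht.trans_lt hyr), hp0, hπu0f]
  have hgo : ∀ t, y.r < t → gy t = o := by
    intro t ht
    rw [hgy, Function.update_of_ne ht.ne', y.f_eq_o ht.le]
  obtain ⟨δ', hδ'G, t, ht1, ht2, ht3, ht4, ht5, ht6, ⟨q1, hq1⟩, ht8⟩ := v.rule ρ hLL
  have hvt : ∀ n, v.f (t n) ≠ o := by
    intro n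
    cases n with
    | zero => rw [ht4]; exact S.cl_ne δ' hδ'G
    | succ n => rw [ht5]; exact S.η_ne δ' hδ'G n
  -- the code point is ≤ y.r
  have hT : t 0 ≤ y.r := by
    by_contra hcon
    rw [not_le] at hcon
    obtain ⟨j, hj⟩ := hsupp (t 0) hcon (ht2 0) (hvt 0)
    have h01 : t 0 < t 1 := ht1 (by norm_num)
    obtain ⟨i, hi⟩ := hsupp (t 1) (hcon.trans h01) (ht2 1) (hvt 1)
    have hji : j < i := by
      rw [hj, hi] at h01
      exact hq.r_strictMono.lt_iff_lt.1 h01
    obtain ⟨m, hm⟩ := ht8 (π (p (j + 1))).r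
      (by rw [hj]; exact (hq.r_strictMono (Nat.lt_succ_self j)).le) (hρ1 (j + 1))
      (by rw [hvw (j + 1)]; exact hw (j + 1))
    have hm0 : 0 < m := by
      rcases Nat.eq_zero_or_pos m with h0 | h0
      · exfalso
        rw [h0, hj] at hm
        exact (hq.r_strictMono (Nat.lt_succ_self j)).ne' hm
      · exact h0
    have h1 : t 1 ≤ (π (p (j + 1))).r := by
      rw [hm]; exact ht1.monotone hm0
    have h2 : (π (p (j + 1))).r ≤ t 1 := by
      rw [hi]; exact hq.r_strictMono.monotone hji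
    have h3 : (π (p (j + 1))).r = t 1 := le_antisymm h2 h1
    have h4 := hirr j
    rw [h3, ← hj, hq1] at h4
    exact h4 ⟨q1, rfl⟩
  -- the last index
  obtain ⟨N, hN⟩ := ht3 y.r (hyr.trans (hρ1 0))
  set k := Nat.findGreatest (fun n => t n ≤ y.r) N with hk
  have hk1 : t k ≤ y.r := Nat.findGreatest_spec (P := fun n => t n ≤ y.r) (Nat.zero_le N) hT
  have hk2 : ∀ m, k < m → y.r < t m := by
    intro m hm
    by_contra hcon
    rw [not_lt] at hcon
    by_cases hmN : m ≤ N
    · exact Nat.findGreatest_is_greatest (P := fun n => t n ≤ y.r) hm hmN hcon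
    · exact absurd (hN.trans_le (ht1.monotone (not_le.1 hmN).le)) (not_lt.2 hcon)
  have hLSw : LSw o gy (t k) (v.f (t k)) := by
    refine ⟨hvt k, (hvg _ hk1).symm, ?_⟩
    intro x hx
    by_cases hxy : x ≤ y.r
    · by_contra hne
      rw [← hvg x hxy] at hne
      obtain ⟨m, hm⟩ := ht8 x ((ht1.monotone (Nat.zero_le k)).trans hx.le)
        (hxy.trans_lt (hyr.trans (hρ1 0))) hne
      have hkm : k < m := by
        rw [hm] at hx
        exact ht1.lt_iff_lt.1 hx
      have := hk2 m hkm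
      rw [← hm] at this
      exact absurd hxy (not_le.2 this)
    · exact hgo x (not_le.1 hxy)
  have hclsk : cls (v.f (t k)) = cls δ' := by
    rcases k with _ | j
    · rw [ht4]; exact S.cls_cl δ' hδ'G
    · rw [ht5]; exact S.cls_η δ' hδ'G j
  have hcls' : cls δ' ≤ cls a' := by
    rw [← hclsk]; exact hcls _ _ hLSw
  have hδδ : δ' = δ := by
    apply hK δ' hδ'G hcls' w
    · intro n
      have h1 : y.r < (π (p n)).r := hyr.trans_le (hq.r_strictMono.monotone (Nat.zero_le n))
      obtain ⟨m, hm⟩ := ht8 (π (p n)).r (hT.trans h1.le) (hρ1 n) (by rw [hvw]; exact hw n)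
      rcases m with _ | m
      · rw [hm] at h1
        exact absurd hT (not_le.2 h1)
      · refine ⟨m, ?_⟩
        rw [← hvw, hm, ht5]
    · refine ⟨k, fun j hj => ?_⟩
      have h1 : y.r < t (j + 1) := hk2 (j + 1) (by omega)
      obtain ⟨n, hn⟩ := hsupp (t (j + 1)) h1 (ht2 _) (hvt _)
      refine ⟨n, ?_⟩
      rw [← ht5, hn, hvw]
    · intro L hL hL2 n
      have h1 : ((p 0).D : Set A) ⊆ L := by
        refine Subset.trans ?_ hL2
        rw [hp0]
        intro a ha
        simp only [Finset.coe_union, mem_union]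
        exact Or.inl ha
      have h2 : ((π (p 0)).D : Set A) ⊆ L := by
        refine Subset.trans ?_ hL2
        rw [hp0]
        intro a ha
        simp only [Finset.coe_union, mem_union]
        exact Or.inr ha
      rw [← InX.chain hL hp h1 n, ← InX.chain hL hq h2 n]
      exact ⟨fun h => h.map hL, fun h => h.map_symm hL⟩
  subst hδδ
  -- conclusion
  rcases hk0 : k with _ | j
  · have h1 : t 0 = r' := by rw [← ht6, hct]
    have h2 : v.f (t 0) = a' := by rw [ht4, hcl]
    rw [hk0, h2, h1] at hLSw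
    exact hLSw
  · exfalso
    rw [hk0] at hLSw
    have h1 := hb2 _ _ hLSw
    rw [ht5] at h1
    have h2 : S.η δ' 0 ≤ S.η δ' j := hlad.1.monotone (Nat.zero_le j)
    rw [h1] at h2
    exact absurd hbη (not_lt.2 h2)

end Pool.Agent.R591.BRT
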