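import Mathlib

/-!
# Combinatorial part: ladders, codes (Ulam matrix) and closure sets on an initial well-order.
-/

open Set Cardinal

set_option linter.unusedSectionVars false

universe u

namespace Pool.Agent.R591.BRT

variable {A : Type u} [LinearOrder A] [WellFoundedLT A]

/-- class of a label -/
noncomputable def cls (a : A) : Cardinal.{u} := max #(Iio a) 𝔠

/-- labels of class at most `ν` -/
def Mset (A : Type u) [LinearOrder A] (ν : Cardinal.{u}) : Set A := {a | #(Iio a) ≤ ν}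

theorem mk_lt_set (ν : Cardinal.{u}) : #{a : A | #(Iio a) < ν} ≤ ν := by
  let f : {a : A | #(Iio a) < ν} → Iio ν.ord := fun a => ⟨Ordinal.typein (α := A) (· < ·) a.1, by
    rw [mem_Iio, Cardinal.lt_ord]
    exact a.2⟩
  have hf : Function.Injective f := by
    intro a b hab
    have : Ordinal.typein (α := A) (· < ·) a.1 = Ordinal.typein (α := A) (· < ·) b.1 :=
      congrArg Subtype.val hab
    exact Subtype.ext (Ordinal.typein_injective _ this)
  have h1 := Cardinal.lift_mk_le_lift_mk_of_injective hf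
  rw [Cardinal.mk_Iio_ordinal, Cardinal.card_ord] at h1
  rw [Cardinal.lift_lift] at h1
  exact Cardinal.lift_le.1 h1

omit [WellFoundedLT A] in
theorem Mset_lower {ν : Cardinal.{u}} {a b : A} (hab : a ≤ b) (hb : b ∈ Mset A ν) :
    a ∈ Mset A ν :=
  (Cardinal.mk_le_mk_of_subset (Iio_subset_Iio hab)).trans hb

theorem mk_Mset_le (ν : Cardinal.{u}) : #(Mset A ν) ≤ Order.succ ν := by
  have h := mk_lt_set (A := A) (Order.succ ν)
  have h2 : {a : A | #(Iio a) < Order.succ ν} = Mset A ν := by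
    ext a
    simp [Mset, Order.lt_succ_iff]
  rwa [h2] at h

theorem lt_mk_Mset {ν : Cardinal.{u}} (h : ν < #A) : ν < #(Mset A ν) := by
  by_cases hu : Mset A ν = Set.univ
  · rw [hu, mk_univ]; exact h
  · have hne : (Mset A ν)ᶜ.Nonempty := by
      rwa [nonempty_compl]
    let m := WellFounded.min (wellFounded_lt (α := A)) _ hne
    have hm : m ∈ (Mset A ν)ᶜ := WellFounded.min_mem _ _ _
    have hm2 : Iio m ⊆ Mset A ν := by
      intro a ha
      by_contra hcon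
      exact WellFounded.not_lt_min (wellFounded_lt (α := A)) (Mset A ν)ᶜ hcon ha
    have : ν < #(Iio m) := by
      simpa [Mset] using hm
    exact this.trans_le (Cardinal.mk_le_mk_of_subset hm2)

omit [WellFoundedLT A] in
theorem bdd_of_le {ν : Cardinal.{u}} (hν : ℵ₀ ≤ ν) (hM : ν < #(Mset A ν)) {T : Set A}
    (hT : T ⊆ Mset A ν) (hc : #T ≤ ν) : ∃ b ∈ Mset A ν, ∀ t ∈ T, t < b := by
  by_contra hcon
  push Not at hcon
  have h1 : Mset A ν ⊆ ⋃ t ∈ T, Iic t := by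
    intro b hb
    obtain ⟨t, ht, hbt⟩ := hcon b hb
    exact mem_iUnion₂.2 ⟨t, ht, hbt⟩
  have h2 : #(⋃ t ∈ T, Iic t : Set A) ≤ #T * ⨆ t : T, #(Iic t.1) := Cardinal.mk_biUnion_le _ _
  have h3 : (⨆ t : T, #(Iic t.1)) ≤ ν := by
    refine ciSup_le' ?_
    intro t
    have : (Iic t.1 : Set A) = insert t.1 (Iio t.1) := by
      ext x; simp [le_iff_lt_or_eq, or_comm]
    rw [this]
    refine (Cardinal.mk_insert_le).trans ?_
    exact Cardinal.add_le_of_le hν (hT t.2) (Cardinal.one_lt_aleph0.le.trans hν)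
  have h4 : #(Mset A ν) ≤ ν := by
    refine (Cardinal.mk_le_mk_of_subset h1).trans (h2.trans ?_)
    exact (mul_le_mul' hc h3).trans (Cardinal.mul_eq_self hν).le
  exact absurd hM (not_lt.2 h4)

/-- `δ` is a limit of elements of `E`. -/
def IsLimOf (E : Set A) (δ : A) : Prop := ∀ γ < δ, ∃ ε ∈ E, γ < ε ∧ ε < δ

/-- `s` is a strictly increasing sequence with least upper bound `δ`. -/
def Ladder (s : ℕ → A) (δ : A) : Prop := StrictMono s ∧ IsLUB (range s) δ

/-- Unbounded in `Mset A ν`. -/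
def Unb (ν : Cardinal.{u}) (E : Set A) : Prop := ∀ b ∈ Mset A ν, ∃ ε ∈ E, b < ε

omit [WellFoundedLT A] in
theorem Ladder.exists_lt {s : ℕ → A} {δ γ : A} (h : Ladder s δ) (hγ : γ < δ) : ∃ n, γ < s n := by
  by_contra hcon
  push Not at hcon
  have : δ ≤ γ := h.2.2 (by rintro _ ⟨n, rfl⟩; exact hcon n)
  exact absurd hγ (not_lt.2 this)

omit [WellFoundedLT A] in
theorem Ladder.lt {s : ℕ → A} {δ : A} (h : Ladder s δ) (n : ℕ) : s n < δ :=
  lt_of_lt_of_le (h.1 (Nat.lt_succ_self n)) (h.2.1 ⟨n + 1, rfl⟩)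

theorem exists_sup {ν : Cardinal.{u}} (hν : ℵ₀ ≤ ν) (hM : ν < #(Mset A ν)) {s : ℕ → A}
    (hs : StrictMono s) (hsM : ∀ n, s n ∈ Mset A ν) : ∃ δ ∈ Mset A ν, Ladder s δ := by
  have h1 : ∃ b ∈ Mset A ν, ∀ t ∈ range s, t < b := by
    apply bdd_of_le hν hM
    · rintro _ ⟨n, rfl⟩; exact hsM n
    · exact ((Set.countable_range s).le_aleph0).trans hν
  have hne : {b : A | ∀ n, s n < b}.Nonempty := by
    obtain ⟨b, _, hb⟩ := h1
    exact ⟨b, fun n => hb _ ⟨n, rfl⟩⟩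
  let δ := WellFounded.min (wellFounded_lt (α := A)) _ hne
  have hδ : ∀ n, s n < δ := WellFounded.min_mem (wellFounded_lt (α := A)) _ hne
  have hmin : ∀ x, (∀ n, s n < x) → δ ≤ x := by
    intro x hx
    exact not_lt.1 (WellFounded.not_lt_min (wellFounded_lt (α := A)) {b : A | ∀ n, s n < b} hx)
  refine ⟨δ, ?_, hs, ?_, ?_⟩
  · obtain ⟨b, hb, hb2⟩ := h1
    exact Mset_lower (hmin b (fun n => hb2 _ ⟨n, rfl⟩)) hb
  · rintro _ ⟨n, rfl⟩; exact (hδ n).le
  · intro x hx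
    apply hmin
    intro n
    exact (hs (Nat.lt_succ_self n)).trans_le (hx ⟨n + 1, rfl⟩)

theorem U1 {ν : Cardinal.{u}} (hν : ℵ₀ ≤ ν) (hM : ν < #(Mset A ν)) {ι : Type u} (hι : #ι ≤ ν)
    (E : ι → Set A) (hE : ∀ i, E i ⊆ Mset A ν) (hU : ∀ i, Unb ν (E i)) {β : A}
    (hβ : β ∈ Mset A ν) :
    ∃ δ ∈ Mset A ν, β < δ ∧ (∃ s, Ladder s δ) ∧ ∀ i, IsLimOf (E i) δ := by
  classical
  choose! p hp1 hp2 using hU
  have hF : ∀ b ∈ Mset A ν, ∃ c ∈ Mset A ν, b < c ∧ ∀ i, p i b < c := by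
    intro b hb
    obtain ⟨c, hc, hc2⟩ := bdd_of_le hν hM (T := insert b (range (fun i => p i b))) (by
      intro x hx
      rcases hx with rfl | ⟨i, rfl⟩
      · exact hb
      · exact hE i (hp1 i b hb)) (by
      refine (Cardinal.mk_insert_le).trans ?_
      exact Cardinal.add_le_of_le hν (Cardinal.mk_range_le.trans hι)
        (Cardinal.one_lt_aleph0.le.trans hν))
    exact ⟨c, hc, hc2 b (mem_insert _ _), fun i => hc2 _ (mem_insert_of_mem _ ⟨i, rfl⟩)⟩
  choose! F hF1 hF2 hF3 using hF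
  let γ : ℕ → A := fun n => Nat.rec β (fun _ b => F b) n
  have hγ0 : γ 0 = β := rfl
  have hγs : ∀ n, γ (n + 1) = F (γ n) := fun n => rfl
  have hγM : ∀ n, γ n ∈ Mset A ν := by
    intro n
    induction n with
    | zero => exact hβ
    | succ n ih => rw [hγs]; exact hF1 _ ih
  have hmono : StrictMono γ := strictMono_nat_of_lt_succ (fun n => by
    rw [hγs]; exact hF2 _ (hγM n))
  obtain ⟨δ, hδ, hL⟩ := exists_sup hν hM hmono hγM
  refine ⟨δ, hδ, ?_, ⟨γ, hL⟩, ?_⟩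
  · have := hL.lt 0
    rwa [hγ0] at this
  · intro i x hx
    obtain ⟨n, hn⟩ := hL.exists_lt hx
    refine ⟨p i (γ n), hp1 i _ (hγM n), hn.trans (hp2 i _ (hγM n)), ?_⟩
    exact (hF3 _ (hγM n) i).trans (by rw [← hγs]; exact hL.lt (n + 1))

/-- Ulam matrix. -/
theorem ulam {ν : Cardinal.{u}} (hν : ℵ₀ ≤ ν) (hM : ν < #(Mset A ν)) {C : Type u} [Nonempty C]
    (hC : #C ≤ Order.succ ν) :
    ∃ code : A → C, ∀ c : C, ∀ E ⊆ Mset A ν, Unb ν E →
      ∃ δ ∈ Mset A ν, (∃ s, Ladder s δ) ∧ IsLimOf E δ ∧ code δ = c := by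
  classical
  let I := ν.out
  have hI : #I = ν := Cardinal.mk_out ν
  have hh : ∀ δ : A, ∃ h : A → I, δ ∈ Mset A ν → InjOn h (Iio δ) := by
    intro δ
    by_cases hδ : δ ∈ Mset A ν
    · have : #(Iio δ) ≤ #I := by rw [hI]; exact hδ
      obtain ⟨e⟩ := Cardinal.le_def _ _ |>.1 this
      have hIne : Nonempty I := by
        rw [← Cardinal.mk_ne_zero_iff, hI]
        exact (Cardinal.aleph0_pos.trans_le hν).ne'
      refine ⟨fun x => if hx : x < δ then e ⟨x, hx⟩ else Classical.arbitrary I, fun _ => ?_⟩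
      intro x hx y hy hxy
      simp only [mem_Iio] at hx hy
      simp only [hx, hy, dif_pos] at hxy
      have := e.injective hxy
      exact congrArg Subtype.val this
    · have hIne : Nonempty I := by
        rw [← Cardinal.mk_ne_zero_iff, hI]
        exact (Cardinal.aleph0_pos.trans_le hν).ne'
      exact ⟨fun _ => Classical.arbitrary I, fun h => absurd h hδ⟩
  choose h hh using hh
  have hstat : ∀ β : Mset A ν, ∃ i : I, ∀ E ⊆ Mset A ν, Unb ν E →
      ∃ δ ∈ Mset A ν, (∃ s, Ladder s δ) ∧ IsLimOf E δ ∧ β.1 < δ ∧ h δ β = i := by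
    intro β
    by_contra hcon
    push Not at hcon
    choose E hE1 hE2 hE3 using hcon
    obtain ⟨δ, hδ, hβδ, hs, hlim⟩ := U1 hν hM (hI.le) E hE1 hE2 β.2
    exact hE3 (h δ β) δ hδ hs (hlim _) hβδ rfl
  choose i hi using hstat
  obtain ⟨i₀, hi₀⟩ := Cardinal.infinite_pigeonhole_card i (Order.succ ν) (Order.succ_le_of_lt hM)
    (hν.trans (Order.le_succ ν)) (by
      rw [hI, (Cardinal.isRegular_succ hν).cof_ord]; exact Order.lt_succ ν)
  obtain ⟨g⟩ := (Cardinal.le_def _ _).1 (hC.trans hi₀)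
  have hgi : ∀ c, i (g c).1 = i₀ := fun c => (g c).2
  let P : A → C → Prop := fun δ c => ((g c).1.1 : A) < δ ∧ h δ (g c).1.1 = i₀
  have huniq : ∀ δ ∈ Mset A ν, ∀ c c', P δ c → P δ c' → c = c' := by
    intro δ hδ c c' hc hc'
    have h1 := hh δ hδ hc.1 hc'.1 (hc.2.trans hc'.2.symm)
    have h2 : (g c).1 = (g c').1 := Subtype.ext h1
    exact g.injective (Subtype.ext h2)
  refine ⟨fun δ => if hx : ∃ c, P δ c then hx.choose else Classical.arbitrary C, ?_⟩
  intro c E hE hU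
  obtain ⟨δ, hδ, hs, hlim, hlt, hi'⟩ := hi (g c).1 E hE hU
  refine ⟨δ, hδ, hs, hlim, ?_⟩
  have hx : ∃ c, P δ c := ⟨c, hlt, by rw [hi', hgi]⟩
  simp only [hx, dif_pos]
  exact huniq δ hδ _ _ hx.choose_spec ⟨hlt, by rw [hi', hgi]⟩

theorem code_exists {ν : Cardinal.{u}} (hν : 𝔠 ≤ ν) (hM : ν < #(Mset A ν)) :
    ∃ code : A → ℝ × A × A, ∀ r : ℝ, ∀ a ∈ Mset A ν, ∀ b ∈ Mset A ν, ∀ E ⊆ Mset A ν, Unb ν E →
      ∃ δ ∈ Mset A ν, (∃ s, Ladder s δ) ∧ IsLimOf E δ ∧ code δ = (r, a, b) := by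
  have hν' : ℵ₀ ≤ ν := Cardinal.aleph0_le_continuum.trans hν
  have hne : Nonempty (Mset A ν) := by
    rw [← Cardinal.mk_ne_zero_iff]
    exact (lt_of_le_of_lt zero_le hM).ne'
  have hC : #(ULift.{u} ℝ × Mset A ν × Mset A ν) ≤ Order.succ ν := by
    have hs : ℵ₀ ≤ Order.succ ν := hν'.trans (Order.le_succ ν)
    rw [Cardinal.mk_prod, Cardinal.mk_prod]
    simp only [Cardinal.lift_id]
    have h1 : #(ULift.{u} ℝ) ≤ Order.succ ν := by
      rw [Cardinal.mk_uLift, Cardinal.mk_real, Cardinal.lift_continuum]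
      exact hν.trans (Order.le_succ ν)
    refine (mul_le_mul' h1 (mul_le_mul' (mk_Mset_le ν) (mk_Mset_le ν))).trans ?_
    rw [Cardinal.mul_eq_self hs, Cardinal.mul_eq_self hs]
  obtain ⟨code, hcode⟩ := ulam hν' hM hC
  refine ⟨fun δ => ((code δ).1.down, (code δ).2.1.1, (code δ).2.2.1), ?_⟩
  intro r a ha b hb E hE hU
  obtain ⟨δ, h1, h2, h3, h4⟩ := hcode (⟨r⟩, ⟨a, ha⟩, ⟨b, hb⟩) E hE hU
  refine ⟨δ, h1, h2, h3, ?_⟩
  simp [h4]

/-- The ladder system with codes. -/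
structure LadSys (A : Type u) [LinearOrder A] (o : A) where
  Good : Set A
  η : A → ℕ → A
  ct : A → ℝ
  cl : A → A
  lad : ∀ δ ∈ Good, Ladder (η δ) δ
  cls_η : ∀ δ ∈ Good, ∀ n, cls (η δ n) = cls δ
  cls_cl : ∀ δ ∈ Good, cls (cl δ) = cls δ
  η_ne : ∀ δ ∈ Good, ∀ n, η δ n ≠ o
  cl_ne : ∀ δ ∈ Good, cl δ ≠ o
  guess : ∀ (r : ℝ) (a b : A), a ≠ o → cls b ≤ cls a → ∀ E ⊆ Mset A (cls a), Unb (cls a) E →
    ∃ δ ∈ Good, cls δ = cls a ∧ ct δ = r ∧ cl δ = a ∧ b < η δ 0 ∧ IsLimOf E δ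

omit [WellFoundedLT A] in
theorem mem_Mset_of_cls {a : A} {ν : Cardinal.{u}} (h : cls a ≤ ν) : a ∈ Mset A ν :=
  (le_max_left _ _).trans h

theorem exists_ladSys (hA : ∀ a : A, #(Iio a) < #A) (hcA : 𝔠 < #A) (o : A) (ho : ∀ a, o ≤ a) :
    Nonempty (LadSys A o) := by
  classical
  have hcls : ∀ a : A, cls a < #A := fun a => max_lt (hA a) hcA
  have hcode : ∀ ν : Cardinal.{u}, ∃ code : A → ℝ × A × A, 𝔠 ≤ ν → ν < #A →
      ∀ r : ℝ, ∀ a ∈ Mset A ν, ∀ b ∈ Mset A ν, ∀ E ⊆ Mset A ν, Unb ν E →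
      ∃ δ ∈ Mset A ν, (∃ s, Ladder s δ) ∧ IsLimOf E δ ∧ code δ = (r, a, b) := by
    intro ν
    by_cases h1 : 𝔠 ≤ ν
    · by_cases h2 : ν < #A
      · obtain ⟨code, hc⟩ := code_exists h1 (lt_mk_Mset h2)
        exact ⟨code, fun _ _ => hc⟩
      · exact ⟨fun _ => (0, o, o), fun _ h => absurd h h2⟩
    · exact ⟨fun _ => (0, o, o), fun h => absurd h h1⟩
  choose code hcode using hcode
  let P : A → (ℕ → A) → Prop := fun δ s => Ladder s δ ∧ (code (cls δ) δ).2.2 < s 0 ∧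
    ∀ n, cls (s n) = cls δ
  let Good : Set A := {δ | (∃ s, P δ s) ∧ cls (code (cls δ) δ).2.1 = cls δ ∧
    (code (cls δ) δ).2.1 ≠ o}
  let η : A → ℕ → A := fun δ => if h : ∃ s, P δ s then h.choose else fun _ => o
  have hη : ∀ δ ∈ Good, P δ (η δ) := by
    intro δ hδ
    have h : ∃ s, P δ s := hδ.1
    simp only [η, h, dif_pos]
    exact h.choose_spec
  refine ⟨{
    Good := Good
    η := η
    ct := fun δ => (code (cls δ) δ).1
    cl := fun δ => (code (cls δ) δ).2.1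
    lad := fun δ hδ => (hη δ hδ).1
    cls_η := fun δ hδ => (hη δ hδ).2.2
    cls_cl := fun δ hδ => hδ.2.1
    η_ne := ?_
    cl_ne := fun δ hδ => hδ.2.2
    guess := ?_ }⟩
  · intro δ hδ n
    have h1 : η δ 0 ≤ η δ n := (hη δ hδ).1.1.monotone (Nat.zero_le n)
    have h2 : o < η δ n := ((ho _).trans_lt (hη δ hδ).2.1).trans_le h1
    exact h2.ne'
  · intro r a b ha hb E hE hU
    set ν := cls a with hνdef
    have hν : 𝔠 ≤ ν := le_max_right _ _
    have hν' : ℵ₀ ≤ ν := Cardinal.aleph0_le_continuum.trans hν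
    have hνA : ν < #A := hcls a
    have hM : ν < #(Mset A ν) := lt_mk_Mset hνA
    have haM : a ∈ Mset A ν := mem_Mset_of_cls le_rfl
    have hbM : b ∈ Mset A ν := mem_Mset_of_cls hb
    -- bound for the lower classes
    obtain ⟨m, hm, hm2⟩ := bdd_of_le hν' hM (T := insert b {x : A | #(Iio x) < ν}) (by
      intro x hx
      rcases hx with rfl | hx
      · exact hbM
      · exact le_of_lt (show #(Iio x) < ν from hx)) (by
      refine (Cardinal.mk_insert_le).trans ?_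
      exact Cardinal.add_le_of_le hν' (mk_lt_set ν) (Cardinal.one_lt_aleph0.le.trans hν'))
    have hclsm : ∀ x, m ≤ x → x ∈ Mset A ν → cls x = ν := by
      intro x hx hxM
      have h1 : ¬ #(Iio x) < ν := by
        intro hcon
        exact absurd (hm2 x (mem_insert_of_mem _ hcon)) (not_lt.2 hx)
      have h2 : #(Iio x) = ν := le_antisymm hxM (not_lt.1 h1)
      rw [cls, h2, max_eq_left hν]
    obtain ⟨δ, hδM, ⟨s, hs⟩, hlim, hcd⟩ := hcode ν hν hνA r a haM b hbM (E ∩ Ioi m)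
      (fun x hx => hE hx.1) (by
        intro c hc
        obtain ⟨d, hd, hd2⟩ := bdd_of_le hν' hM (T := {c, m}) (by
          rintro x (rfl | rfl)
          · exact hc
          · exact hm) ((Cardinal.mk_le_aleph0).trans hν')
        obtain ⟨ε, hε, hε2⟩ := hU d hd
        exact ⟨ε, ⟨hε, (hd2 m (by simp)).trans hε2⟩, (hd2 c (by simp)).trans hε2⟩)
    have hmδ : m < δ := by
      obtain ⟨ε, hε, hε2, hε3⟩ := hlim (s 0) (hs.lt 0)
      exact lt_trans hε.2 hε3
    have hclsδ : cls δ = ν := hclsm δ hmδ.le hδM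
    have hbm : b < m := hm2 b (mem_insert _ _)
    obtain ⟨N, hN⟩ := hs.exists_lt hmδ
    have hP : P δ (fun n => s (N + n)) := by
      refine ⟨⟨fun x y hxy => hs.1 (by omega), ?_, ?_⟩, ?_, ?_⟩
      · rintro _ ⟨n, rfl⟩; exact (hs.lt _).le
      · intro x hx
        apply hs.2.2
        rintro _ ⟨n, rfl⟩
        exact (hs.1.monotone (by omega : n ≤ N + n)).trans (hx ⟨n, rfl⟩)
      · show (code (cls δ) δ).2.2 < s (N + 0)
        rw [hclsδ, hcd]
        exact hbm.trans hN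
      · intro n
        show cls (s (N + n)) = cls δ
        rw [hclsδ]
        apply hclsm
        · exact hN.le.trans (hs.1.monotone (by omega))
        · exact Mset_lower (hs.lt _).le hδM
    have hG : δ ∈ Good := by
      refine ⟨⟨_, hP⟩, ?_, ?_⟩
      · show cls (code (cls δ) δ).2.1 = cls δ
        rw [hclsδ, hcd]
      · show (code (cls δ) δ).2.1 ≠ o
        rw [hclsδ, hcd]; exact ha
    refine ⟨δ, hG, hclsδ, ?_, ?_, ?_, ?_⟩
    · show (code (cls δ) δ).1 = r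
      rw [hclsδ, hcd]
    · show (code (cls δ) δ).2.1 = a
      rw [hclsδ, hcd]
    · have := (hη δ hG).2.1
      rw [hclsδ, hcd] at this
      exact this
    · intro γ hγ
      obtain ⟨ε, hε, h⟩ := hlim γ hγ
      exact ⟨ε, hε.1, h⟩

/-- closed sets -/
def Clo (Γ : Finset A → Set A) (L : Set A) : Prop := ∀ F : Finset A, (F : Set A) ⊆ L → Γ F ⊆ L

theorem mk_step (Γ : Finset A → Set A) (hΓ : ∀ F, #(Γ F) ≤ 𝔠) {ν : Cardinal.{u}} (hν : 𝔠 ≤ ν)
    {B : Set A} (hB : #B ≤ ν) : #(⋃ F : {F : Finset A // (F : Set A) ⊆ B}, Γ F.1 : Set A) ≤ ν := by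
  classical
  have hν' : ℵ₀ ≤ ν := Cardinal.aleph0_le_continuum.trans hν
  have h1 : #{F : Finset A // (F : Set A) ⊆ B} ≤ ν := by
    have h2 : #{F : Finset A // (F : Set A) ⊆ B} ≤ #(Finset B) := by
      refine Cardinal.mk_le_of_injective (f := fun F => F.1.subtype (· ∈ B)) ?_
      intro F G hFG
      apply Subtype.ext
      ext x
      simp only at hFG
      have h3 := Finset.ext_iff.1 hFG
      constructor
      · intro hx
        have := (h3 ⟨x, F.2 hx⟩).1 (by simpa using hx)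
        simpa using this
      · intro hx
        have := (h3 ⟨x, G.2 hx⟩).2 (by simpa using hx)
        simpa using this
    refine h2.trans ?_
    by_cases hinf : Infinite B
    · rw [Cardinal.mk_finset_of_infinite]; exact hB
    · rw [not_infinite_iff_finite] at hinf
      have := hinf
      exact (Cardinal.mk_le_aleph0).trans hν'
  refine (Cardinal.mk_iUnion_le _).trans ?_
  have h4 : (⨆ F : {F : Finset A // (F : Set A) ⊆ B}, #(Γ F.1)) ≤ ν :=
    ciSup_le' (fun F => (hΓ _).trans hν)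
  exact (mul_le_mul' h1 h4).trans (Cardinal.mul_eq_self hν').le

/-- the set of levels -/
def Elev (Γ : Finset A → Set A) (F₀ : Finset A) (ν : Cardinal.{u}) : Set A :=
  {ε | ε ∈ Mset A ν ∧ ∃ L : Set A, Clo Γ L ∧ (F₀ : Set A) ⊆ L ∧ {x : A | #(Iio x) < ν} ⊆ L ∧
    L ∩ Mset A ν = Iio ε}

theorem unb_Elev (Γ : Finset A → Set A) (hΓ : ∀ F, #(Γ F) ≤ 𝔠) (F₀ : Finset A)
    {ν : Cardinal.{u}} (hν : 𝔠 ≤ ν) (hM : ν < #(Mset A ν)) : Unb ν (Elev Γ F₀ ν) := by
  classical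
  have hν' : ℵ₀ ≤ ν := Cardinal.aleph0_le_continuum.trans hν
  intro β hβ
  -- choose bounds
  have hbd : ∀ B : Set A, ∃ ε ∈ Mset A ν, #B ≤ ν → ∀ x ∈ B ∩ Mset A ν, x < ε := by
    intro B
    by_cases hB : #B ≤ ν
    · obtain ⟨ε, hε, h⟩ := bdd_of_le hν' hM (T := B ∩ Mset A ν) inter_subset_right
        ((Cardinal.mk_le_mk_of_subset inter_subset_left).trans hB)
      exact ⟨ε, hε, fun _ => h⟩
    · exact ⟨β, hβ, fun h => absurd h hB⟩
  choose ε hεM hε using hbd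
  let nx : Set A → Set A := fun B =>
    (B ∪ ⋃ F : {F : Finset A // (F : Set A) ⊆ B}, Γ F.1) ∪ insert (ε B) (Iio (ε B))
  have hnx : ∀ B : Set A, #B ≤ ν → #(nx B) ≤ ν := by
    intro B hB
    refine (Cardinal.mk_union_le _ _).trans (Cardinal.add_le_of_le hν' ?_ ?_)
    · exact (Cardinal.mk_union_le _ _).trans (Cardinal.add_le_of_le hν' hB (mk_step Γ hΓ hν hB))
    · refine (Cardinal.mk_insert_le).trans (Cardinal.add_le_of_le hν' (hεM B)
        (Cardinal.one_lt_aleph0.le.trans hν'))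
  let B0 : Set A := insert β ((F₀ : Set A) ∪ {x : A | #(Iio x) < ν})
  have hB0 : #B0 ≤ ν := by
    refine (Cardinal.mk_insert_le).trans (Cardinal.add_le_of_le hν' ?_
      (Cardinal.one_lt_aleph0.le.trans hν'))
    refine (Cardinal.mk_union_le _ _).trans (Cardinal.add_le_of_le hν' ?_ (mk_lt_set ν))
    exact (Cardinal.mk_le_aleph0).trans hν'
  let B : ℕ → Set A := fun n => Nat.rec B0 (fun _ C => nx C) n
  have hBs : ∀ n, B (n + 1) = nx (B n) := fun n => rfl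
  have hBle : ∀ n, #(↥(B n)) ≤ ν := by
    intro n
    induction n with
    | zero => exact hB0
    | succ n ih => rw [hBs]; exact hnx _ ih
  have hBmono : Monotone B := by
    apply monotone_nat_of_le_succ
    intro n
    rw [hBs]
    intro x hx
    exact Or.inl (Or.inl hx)
  have hεs : StrictMono (fun n => ε (B n)) := by
    apply strictMono_nat_of_lt_succ
    intro n
    apply hε (B (n + 1)) (hBle (n + 1))
    refine ⟨?_, hεM _⟩
    rw [hBs]
    exact Or.inr (mem_insert _ _)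
  obtain ⟨δ, hδ, hL⟩ := exists_sup hν' hM hεs (fun n => hεM _)
  refine ⟨δ, ⟨hδ, ⋃ n, B n, ?_, ?_, ?_, ?_⟩, ?_⟩
  · intro F hF
    have : ∃ n, (F : Set A) ⊆ B n := by
      clear hL
      induction F using Finset.induction_on with
      | empty => exact ⟨0, by simp⟩
      | insert a F ha ih =>
        obtain ⟨n, hn⟩ := ih (fun x hx => hF (by simp at hx ⊢; exact Or.inr hx))
        have : a ∈ ⋃ n, B n := hF (by simp)
        obtain ⟨m, hm⟩ := mem_iUnion.1 this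
        refine ⟨max n m, ?_⟩
        intro x hx
        simp only [Finset.coe_insert, mem_insert_iff, Finset.mem_coe] at hx
        rcases hx with rfl | hx
        · exact hBmono (le_max_right _ _) hm
        · exact hBmono (le_max_left _ _) (hn hx)
    obtain ⟨n, hn⟩ := this
    intro x hx
    refine mem_iUnion.2 ⟨n + 1, ?_⟩
    rw [hBs]
    exact Or.inl (Or.inr (mem_iUnion.2 ⟨⟨F, hn⟩, hx⟩))
  · intro x hx
    exact mem_iUnion.2 ⟨0, Or.inr (Or.inl hx)⟩
  · intro x hx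
    exact mem_iUnion.2 ⟨0, Or.inr (Or.inr hx)⟩
  · ext x
    constructor
    · rintro ⟨hx, hxM⟩
      obtain ⟨n, hn⟩ := mem_iUnion.1 hx
      exact (hε (B n) (hBle n) x ⟨hn, hxM⟩).trans (hL.lt n)
    · intro hx
      refine ⟨?_, Mset_lower (le_of_lt hx) hδ⟩
      obtain ⟨n, hn⟩ := hL.exists_lt hx
      refine mem_iUnion.2 ⟨n + 1, ?_⟩
      rw [hBs]
      exact Or.inr (mem_insert_of_mem _ hn)
  · have : β < ε (B 0) := hε (B 0) (hBle 0) β ⟨Or.inl rfl, hβ⟩
    exact this.trans (hL.lt 0)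

theorem K2 {o : A} (S : LadSys A o) (hA : ∀ a : A, #(Iio a) < #A) (hcA : 𝔠 < #A)
    (Γ : Finset A → Set A) (hΓ : ∀ F, #(Γ F) ≤ 𝔠)
    (F₀ : Finset A) (r : ℝ) (a b : A) (ha : a ≠ o) (hb : cls b ≤ cls a) :
    ∃ δ ∈ S.Good, S.ct δ = r ∧ S.cl δ = a ∧ b < S.η δ 0 ∧
      ∀ δ' ∈ S.Good, cls δ' ≤ cls a → ∀ w : ℕ → A, (∀ n, ∃ j, w n = S.η δ' j) →
        (∃ J, ∀ j ≥ J, ∃ n, S.η δ' j = w n) →
        (∀ L : Set A, Clo Γ L → (F₀ : Set A) ⊆ L →
          ∀ n, (∀ j < n, S.η δ j ∈ L) ↔ (∀ j < n, w j ∈ L)) → δ' = δ := by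
  set ν := cls a with hνdef
  have hν : 𝔠 ≤ ν := le_max_right _ _
  have hνA : ν < #A := max_lt (hA a) hcA
  have hM : ν < #(Mset A ν) := lt_mk_Mset hνA
  obtain ⟨δ, hδG, hclsδ, hct, hcl, hbη, hlim⟩ := S.guess r a b ha hb (Elev Γ F₀ ν)
    (fun x hx => hx.1) (unb_Elev Γ hΓ F₀ hν hM)
  refine ⟨δ, hδG, hct, hcl, hbη, ?_⟩
  intro δ' hδ'G hcls' w hw1 hw2 hw3
  have hlad := S.lad δ hδG
  have hlad' := S.lad δ' hδ'G
  have hηM : ∀ j, S.η δ j ∈ Mset A ν := fun j =>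
    mem_Mset_of_cls ((S.cls_η δ hδG j).trans hclsδ).le
  have hη'M : ∀ j, S.η δ' j ∈ Mset A ν := fun j =>
    mem_Mset_of_cls ((S.cls_η δ' hδ'G j).le.trans hcls')
  rcases lt_or_eq_of_le hcls' with hlt | heq
  · -- lower class: contradiction
    exfalso
    obtain ⟨ε, ⟨_, L, hL1, hL2, hL3, hL4⟩, _, hεδ⟩ := hlim (S.η δ 0) (hlad.lt 0)
    obtain ⟨n, hn⟩ := hlad.exists_lt hεδ
    have h1 : ∀ j < n + 1, w j ∈ L := by
      intro j _
      obtain ⟨k, hk⟩ := hw1 j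
      apply hL3
      show #(Iio (w j)) < ν
      rw [hk]
      exact ((le_max_left _ _).trans (S.cls_η δ' hδ'G k).le).trans_lt hlt
    have h2 := (hw3 L hL1 hL2 (n + 1)).2 h1 n (Nat.lt_succ_self n)
    have h3 : S.η δ n ∈ L ∩ Mset A ν := ⟨h2, hηM n⟩
    rw [hL4] at h3
    exact absurd h3 (not_lt.2 hn.le)
  · apply le_antisymm
    · -- δ' ≤ δ
      have hwδ : ∀ n, w n < δ := by
        intro n
        obtain ⟨ε, ⟨_, L, hL1, hL2, hL3, hL4⟩, hlt, hεδ⟩ := hlim (S.η δ n) (hlad.lt n)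
        have h1 : ∀ j < n + 1, S.η δ j ∈ L := by
          intro j hj
          have : S.η δ j ∈ L ∩ Mset A ν := by
            rw [hL4]
            exact (hlad.1.monotone (Nat.lt_succ_iff.1 hj)).trans_lt hlt
          exact this.1
        have h2 := (hw3 L hL1 hL2 (n + 1)).1 h1 n (Nat.lt_succ_self n)
        obtain ⟨k, hk⟩ := hw1 n
        have h3 : w n ∈ L ∩ Mset A ν := ⟨h2, by rw [hk]; exact hη'M k⟩
        rw [hL4] at h3
        exact lt_trans h3 hεδ
      obtain ⟨J, hJ⟩ := hw2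
      apply hlad'.2.2
      rintro _ ⟨j, rfl⟩
      obtain ⟨n, hn⟩ := hJ (max j J) (le_max_right _ _)
      have h1 : S.η δ' j ≤ S.η δ' (max j J) := hlad'.1.monotone (le_max_left _ _)
      rw [hn] at h1
      exact h1.trans (hwδ n).le
    · by_contra hcon
      rw [not_le] at hcon
      obtain ⟨ε, ⟨_, L, hL1, hL2, hL3, hL4⟩, hlt, hεδ⟩ := hlim δ' hcon
      obtain ⟨n, hn⟩ := hlad.exists_lt hεδ
      have h1 : ∀ j < n + 1, w j ∈ L := by
        intro j _
        obtain ⟨k, hk⟩ := hw1 j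
        have : w j ∈ L ∩ Mset A ν := by
          rw [hL4, hk]
          exact (hlad'.lt k).trans hlt
        exact this.1
      have h2 := (hw3 L hL1 hL2 (n + 1)).2 h1 n (Nat.lt_succ_self n)
      have h3 : S.η δ n ∈ L ∩ Mset A ν := ⟨h2, hηM n⟩
      rw [hL4] at h3
      exact absurd h3 (not_lt.2 hn.le)

end Pool.Agent.R591.BRT
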