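import Pool.Agent.R591.BRT.Comb

/-!
# The tree of labelled real paths.
-/

open Set Cardinal

set_option linter.unusedSectionVars false

universe u

namespace Pool.Agent.R591.BRT

variable {A : Type u} [LinearOrder A] {o : A}

/-- the filling rule at a limit point `s` -/
def Rule (S : LadSys A o) (f : ℝ → A) (s : ℝ) : Prop :=
  ∃ δ ∈ S.Good, ∃ t : ℕ → ℝ, StrictMono t ∧ (∀ n, t n < s) ∧ (∀ x < s, ∃ n, x < t n) ∧
    f (t 0) = S.cl δ ∧ (∀ n, f (t (n + 1)) = S.η δ n) ∧ S.ct δ = t 0 ∧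
    (∃ q : ℚ, t 1 - t 0 = q) ∧
    (∀ x, t 0 ≤ x → x < s → f x ≠ o → ∃ n, x = t n)

/-- `s` is a left limit point of the support of `f` -/
def LeftLim (o : A) (f : ℝ → A) (s : ℝ) : Prop := ∀ x < s, ∃ y, x < y ∧ y < s ∧ f y ≠ o

theorem Rule.congr {S : LadSys A o} {f g : ℝ → A} {s : ℝ} (h : ∀ t < s, f t = g t)
    (hf : Rule S f s) : Rule S g s := by
  obtain ⟨δ, hδ, t, h1, h2, h3, h4, h5, h6, h7, h8⟩ := hf
  refine ⟨δ, hδ, t, h1, h2, h3, ?_, ?_, h6, h7, ?_⟩
  · rw [← h _ (h2 0)]; exact h4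
  · intro n; rw [← h _ (h2 _)]; exact h5 n
  · intro x hx hxs hgx
    exact h8 x hx hxs (by rw [h x hxs]; exact hgx)

theorem LeftLim.congr {f g : ℝ → A} {s : ℝ} (h : ∀ t < s, f t = g t)
    (hf : LeftLim o f s) : LeftLim o g s := by
  intro x hx
  obtain ⟨y, h1, h2, h3⟩ := hf x hx
  exact ⟨y, h1, h2, by rw [← h y h2]; exact h3⟩

/-- Nodes -/
@[ext]
structure Node (S : LadSys A o) where
  r : ℝ
  f : ℝ → A
  r_nonneg : 0 ≤ r
  supp : ∀ t, f t ≠ o → 0 ≤ t ∧ t < r
  rz : ∀ s, ∃ e, s < e ∧ ∀ t, s < t → t < e → f t = o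
  rule : ∀ s, LeftLim o f s → Rule S f s

variable {S : LadSys A o}

theorem Node.f_eq_o (x : Node S) {t : ℝ} (h : x.r ≤ t) : x.f t = o := by
  by_contra hcon
  exact absurd (x.supp t hcon).2 (not_lt.2 h)

instance : PartialOrder (Node S) where
  le x y := x.r ≤ y.r ∧ ∀ t < x.r, x.f t = y.f t
  le_refl x := ⟨le_rfl, fun _ _ => rfl⟩
  le_trans x y z h1 h2 := ⟨h1.1.trans h2.1, fun t ht =>
    (h1.2 t ht).trans (h2.2 t (ht.trans_le h1.1))⟩
  le_antisymm x y h1 h2 := by
    have hr : x.r = y.r := le_antisymm h1.1 h2.1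
    apply Node.ext hr
    funext t
    by_cases ht : t < x.r
    · exact h1.2 t ht
    · rw [x.f_eq_o (not_lt.1 ht), y.f_eq_o (hr ▸ not_lt.1 ht)]

theorem Node.le_def {x y : Node S} : x ≤ y ↔ x.r ≤ y.r ∧ ∀ t < x.r, x.f t = y.f t := Iff.rfl

theorem Node.eq_of_le_of_r {x y : Node S} (h : x ≤ y) (hr : y.r ≤ x.r) : x = y := by
  apply le_antisymm h
  refine ⟨hr, fun t ht => ?_⟩
  have : x.r = y.r := le_antisymm h.1 hr
  exact (h.2 t (this ▸ ht)).symm

theorem Node.r_lt {x y : Node S} (h : x < y) : x.r < y.r := by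
  by_contra hcon
  exact h.ne (Node.eq_of_le_of_r h.le (not_lt.1 hcon))

theorem Node.lt_of_le_of_r {x y : Node S} (h : x ≤ y) (hr : x.r < y.r) : x < y := by
  refine lt_of_le_of_ne h ?_
  rintro rfl
  exact lt_irrefl _ hr

theorem Node.strictMono_r : StrictMono (Node.r : Node S → ℝ) := fun _ _ h => Node.r_lt h

theorem Node.le_of_le_of_le {x y z : Node S} (hx : x ≤ z) (hy : y ≤ z) (hr : x.r ≤ y.r) :
    x ≤ y :=
  ⟨hr, fun t ht => (hx.2 t ht).trans (hy.2 t (ht.trans_le hr)).symm⟩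

/-- restriction -/
noncomputable def Node.res (y : Node S) (s : ℝ) (h0 : 0 ≤ s) : Node S where
  r := s
  f := fun t => if t < s then y.f t else o
  r_nonneg := h0
  supp := by
    intro t ht
    by_cases h : t < s
    · simp only [h, if_true] at ht
      exact ⟨(y.supp t ht).1, h⟩
    · simp [h] at ht
  rz := by
    intro x
    obtain ⟨e, he, h⟩ := y.rz x
    refine ⟨e, he, fun t h1 h2 => ?_⟩
    by_cases h' : t < s
    · simp only [h', if_true]; exact h t h1 h2
    · simp [h']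
  rule := by
    intro x hx
    have hxs : x ≤ s := by
      by_contra hcon
      obtain ⟨y', h1, h2, h3⟩ := hx s (not_le.1 hcon)
      simp [not_lt.2 h1.le] at h3
    have hc : ∀ t < x, (fun t => if t < s then y.f t else o) t = y.f t := by
      intro t ht
      simp [ht.trans_le hxs]
    exact (y.rule x (hx.congr hc)).congr (fun t ht => (hc t ht).symm)

theorem Node.res_le (y : Node S) {s : ℝ} (h0 : 0 ≤ s) (h1 : s ≤ y.r) : y.res s h0 ≤ y :=
  ⟨h1, fun t ht => by
    have : t < s := ht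
    simp [Node.res, this]⟩

/-- extension by one switch, then straight. -/
noncomputable def Node.ext' (u : Node S) (c : A) (e : ℝ) (he : 0 < e) : Node S where
  r := u.r + e
  f := Function.update u.f u.r c
  r_nonneg := by have := u.r_nonneg; linarith
  supp := by
    intro t ht
    by_cases h : t = u.r
    · subst h; exact ⟨u.r_nonneg, by linarith⟩
    · rw [Function.update_of_ne h] at ht
      have := u.supp t ht
      exact ⟨this.1, by linarith [this.2]⟩
  rz := by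
    intro s
    obtain ⟨e', he', h⟩ := u.rz s
    by_cases hs : s < u.r
    · refine ⟨min e' u.r, lt_min he' hs, fun t h1 h2 => ?_⟩
      have h3 : t < u.r := h2.trans_le (min_le_right _ _)
      rw [Function.update_of_ne h3.ne]
      exact h t h1 (h2.trans_le (min_le_left _ _))
    · refine ⟨e', he', fun t h1 h2 => ?_⟩
      have h3 : u.r < t := (not_lt.1 hs).trans_lt h1
      rw [Function.update_of_ne h3.ne']
      exact u.f_eq_o h3.le
  rule := by
    intro s hs
    have hsr : s ≤ u.r := by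
      by_contra hcon
      obtain ⟨y, h1, h2, h3⟩ := hs u.r (not_le.1 hcon)
      rw [Function.update_of_ne h1.ne'] at h3
      exact h3 (u.f_eq_o h1.le)
    have hc : ∀ t < s, Function.update u.f u.r c t = u.f t := by
      intro t ht
      exact Function.update_of_ne (ht.trans_le hsr).ne _ _
    exact (u.rule s (hs.congr hc)).congr (fun t ht => (hc t ht).symm)

@[simp] theorem Node.ext'_r (u : Node S) (c : A) (e : ℝ) (he : 0 < e) :
    (u.ext' c e he).r = u.r + e := rfl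

theorem Node.ext'_f (u : Node S) (c : A) (e : ℝ) (he : 0 < e) :
    (u.ext' c e he).f = Function.update u.f u.r c := rfl

@[simp] theorem Node.ext'_f_self (u : Node S) (c : A) (e : ℝ) (he : 0 < e) :
    (u.ext' c e he).f u.r = c := by
  rw [Node.ext'_f, Function.update_self]

theorem Node.ext'_f_gt (u : Node S) (c : A) (e : ℝ) (he : 0 < e) {t : ℝ} (ht : u.r < t) :
    (u.ext' c e he).f t = o := by
  rw [Node.ext'_f, Function.update_of_ne ht.ne']
  exact u.f_eq_o ht.le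

theorem Node.ext'_f_lt (u : Node S) (c : A) (e : ℝ) (he : 0 < e) {t : ℝ} (ht : t < u.r) :
    (u.ext' c e he).f t = u.f t := by
  rw [Node.ext'_f, Function.update_of_ne ht.ne]

theorem Node.lt_ext' (u : Node S) (c : A) (e : ℝ) (he : 0 < e) : u < u.ext' c e he := by
  apply Node.lt_of_le_of_r
  · refine ⟨?_, fun t ht => ?_⟩
    · simp; linarith
    · exact (u.ext'_f_lt c e he ht).symm
  · simp; linarith

theorem Node.ext'_le_ext' (u : Node S) (c : A) {e e' : ℝ} (he : 0 < e) (hee : e ≤ e') :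
    u.ext' c e he ≤ u.ext' c e' (he.trans_le hee) := by
  refine ⟨?_, fun t ht => rfl⟩
  simp; exact hee

theorem Node.ext'_lt_ext' (u : Node S) (c : A) {e e' : ℝ} (he : 0 < e) (hee : e < e') :
    u.ext' c e he < u.ext' c e' (he.trans hee) := by
  apply Node.lt_of_le_of_r (u.ext'_le_ext' c he hee.le)
  simp; exact hee

/-- between `u` and `ext' u c e` -/
theorem Node.eq_ext'_of_le {u v : Node S} {c : A} {e : ℝ} (he : 0 < e) (h1 : u < v)
    (h2 : v ≤ u.ext' c e he) : ∃ h : 0 < v.r - u.r, v = u.ext' c (v.r - u.r) h := by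
  have hr := Node.r_lt h1
  have h0 : 0 < v.r - u.r := by linarith
  refine ⟨h0, ?_⟩
  have h3 : v.r - u.r ≤ e := by
    have := h2.1
    simp at this
    linarith
  have h4 : u.ext' c (v.r - u.r) h0 ≤ u.ext' c e he := u.ext'_le_ext' c h0 h3
  apply le_antisymm
  · apply Node.le_of_le_of_le h2 h4
    simp
  · apply Node.le_of_le_of_le h4 h2
    simp

theorem Node.straight {x w : Node S} (h : x < w) :
    ∃ e₀, 0 < e₀ ∧ ∀ e (he : 0 < e), e ≤ e₀ → x.ext' (w.f x.r) e he ≤ w := by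
  obtain ⟨e', he', hz⟩ := w.rz x.r
  have hr := Node.r_lt h
  refine ⟨min (e' - x.r) (w.r - x.r), lt_min (by linarith) (by linarith), fun e he hle => ?_⟩
  have h1 : e ≤ e' - x.r := hle.trans (min_le_left _ _)
  have h2 : e ≤ w.r - x.r := hle.trans (min_le_right _ _)
  refine ⟨by simp; linarith, fun t ht => ?_⟩
  simp only [Node.ext'_r] at ht
  rcases lt_trichotomy t x.r with h3 | h3 | h3
  · rw [Node.ext'_f_lt _ _ _ _ h3]
    exact h.le.2 t h3
  · subst h3; simp
  · rw [Node.ext'_f_gt _ _ _ _ h3]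
    exact (hz t h3 (by linarith)).symm

theorem Node.f_eq_of_lt_le {x v w : Node S} (h : x < v) (h2 : v ≤ w) : v.f x.r = w.f x.r :=
  h2.2 _ (Node.r_lt h)

theorem sameComp {x w w' : Node S} (h : x < w) (h' : x < w') :
    (∃ v, x < v ∧ v ≤ w ∧ v ≤ w') ↔ w.f x.r = w'.f x.r := by
  constructor
  · rintro ⟨v, h1, h2, h3⟩
    rw [← Node.f_eq_of_lt_le h1 h2, ← Node.f_eq_of_lt_le h1 h3]
  · intro heq
    obtain ⟨e, he, h1⟩ := Node.straight h
    obtain ⟨e', he', h1'⟩ := Node.straight h'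
    have hm : 0 < min e e' := lt_min he he'
    refine ⟨x.ext' (w.f x.r) (min e e') hm, Node.lt_ext' _ _ _ _, h1 _ hm (min_le_left _ _), ?_⟩
    rw [heq]
    exact h1' _ hm (min_le_right _ _)

/-! ### label maps of automorphisms -/

/-- label map -/
noncomputable def sig (π : Node S ≃o Node S) (z : Node S) (c : A) : A :=
  (π (z.ext' c 1 one_pos)).f (π z).r

theorem sig_spec (π : Node S ≃o Node S) {z w : Node S} (h : z < w) :
    (π w).f (π z).r = sig π z (w.f z.r) := by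
  have h1 : z < z.ext' (w.f z.r) 1 one_pos := Node.lt_ext' _ _ _ _
  obtain ⟨v, hv1, hv2, hv3⟩ := (sameComp h h1).2 (by simp)
  have h2 := (sameComp (π.strictMono h) (π.strictMono h1)).1
    ⟨π v, π.strictMono hv1, π.monotone hv2, π.monotone hv3⟩
  exact h2

theorem sig_symm (π : Node S ≃o Node S) (z : Node S) (c : A) :
    sig π.symm (π z) (sig π z c) = c := by
  have h1 : z < z.ext' c 1 one_pos := Node.lt_ext' _ _ _ _
  have h2 := sig_spec π.symm (π.strictMono h1)
  rw [π.symm_apply_apply, π.symm_apply_apply] at h2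
  simp only [Node.ext'_f_self] at h2
  exact h2.symm

theorem sig_inj (π : Node S ≃o Node S) (z : Node S) {c c' : A} (h : sig π z c = sig π z c') :
    c = c' := by
  rw [← sig_symm π z c, h, sig_symm]

theorem SL (π : Node S ≃o Node S) (u : Node S) (c : A) {M : ℝ} (hM : u.r < M) :
    ∃ e, ∃ he : 0 < e, u.r + e < M ∧ ∃ e', ∃ he' : 0 < e',
      π (u.ext' c e he) = (π u).ext' (sig π u c) e' he' := by
  have h1 : 0 < (M - u.r) / 2 := by linarith
  set w := u.ext' c ((M - u.r) / 2) h1 with hw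
  have huw : u < w := Node.lt_ext' _ _ _ _
  obtain ⟨e', he', hs⟩ := Node.straight (π.strictMono huw)
  have h2 : (π w).f (π u).r = sig π u c := by
    rw [sig_spec π huw, hw]; simp
  have h3 := hs e' he' le_rfl
  rw [h2] at h3
  have h4 : π.symm ((π u).ext' (sig π u c) e' he') ≤ w := by
    rw [π.symm_apply_le]; exact h3
  have h5 : u < π.symm ((π u).ext' (sig π u c) e' he') := by
    rw [π.lt_symm_apply]; exact Node.lt_ext' _ _ _ _
  rw [hw] at h4
  obtain ⟨h6, h7⟩ := Node.eq_ext'_of_le h1 h5 h4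
  refine ⟨_, h6, ?_, e', he', ?_⟩
  · have := h4.1
    simp only [Node.ext'_r] at this
    linarith
  · rw [← h7, π.apply_symm_apply]

theorem SL2 (π : Node S ≃o Node S) (u : Node S) (c : A) {e₀ e₀' : ℝ} (he₀ : 0 < e₀)
    (he₀' : 0 < e₀') (h : π (u.ext' c e₀ he₀) = (π u).ext' (sig π u c) e₀' he₀')
    {v : Node S} (hv : u < v) (hv2 : v < u.ext' c e₀ he₀) :
    (∃ e, ∃ he : 0 < e, e < e₀ ∧ v = u.ext' c e he) ∧
    (∃ e', ∃ he' : 0 < e', e' < e₀' ∧ π v = (π u).ext' (sig π u c) e' he') ∧ sig π v o = o := by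
  have h1 : π v < (π u).ext' (sig π u c) e₀' he₀' := by rw [← h]; exact π.strictMono hv2
  obtain ⟨h2, h3⟩ := Node.eq_ext'_of_le he₀ hv hv2.le
  obtain ⟨h4, h5⟩ := Node.eq_ext'_of_le he₀' (π.strictMono hv) h1.le
  have h6 := Node.r_lt hv2
  have h7 := Node.r_lt h1
  simp only [Node.ext'_r] at h6 h7
  refine ⟨⟨_, h2, by linarith, h3⟩, ⟨_, h4, by linarith, h5⟩, ?_⟩
  have h8 := sig_spec π hv2
  rw [h] at h8
  rw [Node.ext'_f_gt _ _ _ _ (Node.r_lt (π.strictMono hv)), Node.ext'_f_gt _ _ _ _ (Node.r_lt hv)]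
    at h8
  exact h8.symm

theorem step_irr (π : Node S ≃o Node S) (u : Node S) (c : A) {M : ℝ} (hM : u.r < M) :
    ∃ v : Node S, v.r < M ∧ (∃ e, ∃ he : 0 < e, v = u.ext' c e he) ∧
      (∃ e', ∃ he' : 0 < e', Irrational e' ∧ π v = (π u).ext' (sig π u c) e' he') ∧
      sig π v o = o := by
  obtain ⟨e₀, he₀, hlt, e₀', he₀', h⟩ := SL π u c hM
  obtain ⟨e', hirr, he'0, he'1⟩ := exists_irrational_btwn he₀'
  set v := π.symm ((π u).ext' (sig π u c) e' he'0) with hv
  have hπv : π v = (π u).ext' (sig π u c) e' he'0 := by rw [hv, π.apply_symm_apply]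
  have h1 : u < v := by
    rw [hv, π.lt_symm_apply]; exact Node.lt_ext' _ _ _ _
  have h2 : v < u.ext' c e₀ he₀ := by
    rw [hv, π.symm_apply_lt, h]; exact Node.ext'_lt_ext' _ _ _ he'1
  obtain ⟨⟨e, he, he1, hve⟩, _, h5⟩ := SL2 π u c he₀ he₀' h h1 h2
  refine ⟨v, ?_, ⟨e, he, hve⟩, ⟨e', he'0, hirr, hπv⟩, h5⟩
  rw [hve]; simp; linarith

theorem step_rat (π : Node S ≃o Node S) (u : Node S) (c : A) {M : ℝ} (hM : u.r < M) (r' : ℝ) :
    ∃ v : Node S, v.r < M ∧ (∃ e, ∃ he : 0 < e, v = u.ext' c e he) ∧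
      (∃ e', ∃ he' : 0 < e', π v = (π u).ext' (sig π u c) e' he') ∧
      (∃ q : ℚ, v.r - r' = q) ∧ sig π v o = o := by
  obtain ⟨e₀, he₀, hlt, e₀', he₀', h⟩ := SL π u c hM
  obtain ⟨q, hq1, hq2⟩ := exists_rat_btwn (show u.r - r' < u.r + e₀ - r' by linarith)
  have he : 0 < q + r' - u.r := by linarith
  set v := u.ext' c (q + r' - u.r) he with hv
  have h1 : u < v := Node.lt_ext' _ _ _ _
  have h2 : v < u.ext' c e₀ he₀ := Node.ext'_lt_ext' _ _ _ (by linarith)
  obtain ⟨_, ⟨e', he', _, h4⟩, h5⟩ := SL2 π u c he₀ he₀' h h1 h2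
  refine ⟨v, ?_, ⟨_, he, hv⟩, ⟨e', he', h4⟩, ⟨q, ?_⟩, h5⟩
  · rw [hv]; simp; linarith
  · rw [hv]; simp

/-! ### chains of extensions -/

/-- successive one-switch extensions -/
def ChainExt (p : ℕ → Node S) (d : ℕ → A) : Prop :=
  ∀ n, ∃ e, ∃ he : 0 < e, p (n + 1) = (p n).ext' (d n) e he

theorem ChainExt.lt {p : ℕ → Node S} {d : ℕ → A} (h : ChainExt p d) (n : ℕ) : p n < p (n + 1) := by
  obtain ⟨e, he, heq⟩ := h n
  rw [heq]; exact Node.lt_ext' _ _ _ _

theorem ChainExt.strictMono {p : ℕ → Node S} {d : ℕ → A} (h : ChainExt p d) : StrictMono p :=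
  strictMono_nat_of_lt_succ h.lt

theorem ChainExt.r_strictMono {p : ℕ → Node S} {d : ℕ → A} (h : ChainExt p d) :
    StrictMono (fun n => (p n).r) := fun _ _ hab => Node.r_lt (h.strictMono hab)

theorem ChainExt.f_self {p : ℕ → Node S} {d : ℕ → A} (h : ChainExt p d) (j : ℕ) :
    (p (j + 1)).f (p j).r = d j := by
  obtain ⟨e, he, heq⟩ := h j
  rw [heq]; simp

theorem ChainExt.f_at {p : ℕ → Node S} {d : ℕ → A} (h : ChainExt p d) {j n : ℕ} (hjn : j < n) :
    (p n).f (p j).r = d j := by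
  rw [← h.f_self j]
  exact ((h.strictMono.monotone (Nat.succ_le_of_lt hjn)).2 _ (Node.r_lt (h.lt j))).symm

theorem ChainExt.supp {p : ℕ → Node S} {d : ℕ → A} (h : ChainExt p d) (n : ℕ) {t : ℝ}
    (ht : (p n).f t ≠ o) : t < (p 0).r ∨ ∃ j < n, t = (p j).r := by
  induction n with
  | zero => left; exact ((p 0).supp t ht).2
  | succ n ih =>
    obtain ⟨e, he, heq⟩ := h n
    rcases lt_trichotomy t (p n).r with h1 | h1 | h1
    · rw [heq, Node.ext'_f_lt _ _ _ _ h1] at ht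
      rcases ih ht with h2 | ⟨j, hj, h2⟩
      · exact Or.inl h2
      · exact Or.inr ⟨j, by omega, h2⟩
    · exact Or.inr ⟨n, by omega, h1⟩
    · rw [heq, Node.ext'_f_gt _ _ _ _ h1] at ht
      exact absurd rfl ht

theorem ChainExt.f_zero {p : ℕ → Node S} {d : ℕ → A} (h : ChainExt p d) (n : ℕ) {t : ℝ}
    (ht : t < (p 0).r) : (p n).f t = (p 0).f t :=
  ((h.strictMono.monotone (Nat.zero_le n)).2 t ht).symm

theorem exists_sup_seq {t : ℕ → ℝ} (ht : StrictMono t) {M : ℝ} (hM : ∀ n, t n ≤ M) :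
    ∃ s, s ≤ M ∧ (∀ n, t n < s) ∧ ∀ x < s, ∃ n, x < t n := by
  have hb : BddAbove (range t) := ⟨M, by rintro _ ⟨n, rfl⟩; exact hM n⟩
  refine ⟨sSup (range t), ?_, ?_, ?_⟩
  · apply csSup_le (range_nonempty t)
    rintro _ ⟨n, rfl⟩; exact hM n
  · intro n
    exact (ht (Nat.lt_succ_self n)).trans_le (le_csSup hb ⟨n + 1, rfl⟩)
  · intro x hx
    obtain ⟨_, ⟨n, rfl⟩, hn⟩ := exists_lt_of_lt_csSup (range_nonempty t) hx
    exact ⟨n, hn⟩

open Classical in
/-- union of a chain of nodes -/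
noncomputable def limf (o : A) (r : ℕ → ℝ) (f : ℕ → ℝ → A) (t : ℝ) : A :=
  if h : ∃ n, t < r n then f (Nat.find h) t else o

theorem limf_eq {p : ℕ → Node S} (hp : StrictMono p) {n : ℕ} {t : ℝ} (ht : t < (p n).r) :
    limf o (fun n => (p n).r) (fun n => (p n).f) t = (p n).f t := by
  classical
  have h : ∃ n, t < (p n).r := ⟨n, ht⟩
  unfold limf
  rw [dif_pos h]
  have h1 : t < (p (Nat.find h)).r := Nat.find_spec h
  have h2 : Nat.find h ≤ n := Nat.find_min' h ht
  exact (hp.monotone h2).2 t h1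

theorem exists_limNode {p : ℕ → Node S} (hp : StrictMono p) {s : ℝ} (h1 : ∀ n, (p n).r < s)
    (h2 : ∀ x < s, ∃ n, x < (p n).r)
    (hrule : Rule S (limf o (fun n => (p n).r) (fun n => (p n).f)) s) :
    ∃ U : Node S, ∀ n, p n ≤ U := by
  set f := limf o (fun n => (p n).r) (fun n => (p n).f) with hf
  have hfn : ∀ n t, t < (p n).r → f t = (p n).f t := fun n t ht => limf_eq hp ht
  have hfo : ∀ t, s ≤ t → f t = o := by
    intro t ht
    have : ¬ ∃ n, t < (p n).r := by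
      rintro ⟨n, hn⟩
      exact absurd (h1 n) (not_lt.2 (ht.trans hn.le))
    rw [hf]; unfold limf; rw [dif_neg this]
  refine ⟨⟨s, f, (p 0).r_nonneg.trans (h1 0).le, ?_, ?_, ?_⟩, ?_⟩
  · intro t ht
    have hts : t < s := by
      by_contra hcon
      exact ht (hfo t (not_lt.1 hcon))
    obtain ⟨n, hn⟩ := h2 t hts
    rw [hfn n t hn] at ht
    exact ⟨((p n).supp t ht).1, hts⟩
  · intro x
    by_cases hx : x < s
    · obtain ⟨n, hn⟩ := h2 x hx
      obtain ⟨e, he, h⟩ := (p n).rz x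
      refine ⟨min e (p n).r, lt_min he hn, fun t ht1 ht2 => ?_⟩
      rw [hfn n t (ht2.trans_le (min_le_right _ _))]
      exact h t ht1 (ht2.trans_le (min_le_left _ _))
    · exact ⟨x + 1, by linarith, fun t ht _ => hfo t ((not_lt.1 hx).trans ht.le)⟩
  · intro x hx
    rcases lt_trichotomy x s with h | h | h
    · obtain ⟨n, hn⟩ := h2 x h
      have hc : ∀ t < x, f t = (p n).f t := fun t ht => hfn n t (ht.trans hn)
      exact ((p n).rule x (hx.congr hc)).congr (fun t ht => (hc t ht).symm)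
    · subst h; exact hrule
    · obtain ⟨y, hy1, hy2, hy3⟩ := hx s h
      exact absurd (hfo y hy1.le) hy3
  · intro n
    exact ⟨(h1 n).le, fun t ht => (hfn n t ht).symm⟩

end Pool.Agent.R591.BRT
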